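import Pool.Agent.helper11.RPQ.SpecT
import Pool.Agent.helper62.RS.All

/-!
# Row rpq:TRN (MP_07c750): transport of the coefficients with the phase of the perturbation
-/

set_option autoImplicit false

open scoped MatrixGroups ContDiff Topology UpperHalfPlane ComplexConjugate
open UpperHalfPlane MeasureTheory Filter Set

namespace Pool.Agent.RPQ

open Pool.Agent.RS
open Pool.Agent.MS (BA BB st pf gk Dk amk)

/-- the mean value inequality in `L²` -/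
theorem TRN_mv {X : Type*} [MeasurableSpace X] {μ : Measure X} [IsFiniteMeasure μ] (Y Y' : ℝ → X → ℂ) (t B : ℝ) (ht : 0 ≤ t)
    (hm : ∀ s ∈ Ioo (-1) (t + 1), AEStronglyMeasurable (Y s) μ) (hm' : ∀ s ∈ Ioo (-1) (t + 1), AEStronglyMeasurable (Y' s) μ)
    (hb : ∀ s ∈ Icc 0 t, ∃ M, ∀ x, ‖Y s x‖ ≤ M)
    (hd : ∀ x s, HasDerivAt (fun s => Y s x) (Y' s x) s)
    (hb' : ∃ M, ∀ s ∈ Ioo (-1) (t + 1), ∀ x, ‖Y' s x‖ ≤ M)
    (hB : ∀ s ∈ Icc 0 t, ∫ x, ‖Y' s x‖ ^ 2 ∂μ ≤ B) :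
    ∫ x, ‖Y t x - Y 0 x‖ ^ 2 ∂μ ≤ t ^ 2 * B := by
  rcases ht.eq_or_lt with h0 | hpos
  · rw [← h0]
    simp
  have mt : t ∈ Icc 0 t := ⟨ht, le_refl _⟩
  have m0 : (0 : ℝ) ∈ Icc 0 t := ⟨le_refl _, ht⟩
  have hI : ∀ s ∈ Icc 0 t, s ∈ Ioo (-1) (t + 1) := fun s hs => ⟨by linarith [hs.1], by linarith [hs.2]⟩
  have hIb : ∀ s ∈ Icc 0 t, ∀ s' ∈ Metric.ball s 1, s' ∈ Ioo (-1) (t + 1) := by
    intro s hs s' hs'
    rw [Metric.mem_ball, Real.dist_eq, abs_lt] at hs'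
    exact ⟨by linarith [hs.1, hs'.1], by linarith [hs.2, hs'.2]⟩
  obtain ⟨M1, hM1⟩ := hb t mt
  obtain ⟨M2, hM2⟩ := hb 0 m0
  obtain ⟨M, hM⟩ := hb'
  have hmt := hm t (hI t mt)
  have hm0 := hm 0 (hI 0 m0)
  have hZm : AEStronglyMeasurable (fun x => conj (Y t x - Y 0 x)) μ :=
    Complex.continuous_conj.comp_aestronglyMeasurable (hmt.sub hm0)
  have hZb : ∀ x, ‖conj (Y t x - Y 0 x)‖ ≤ M1 + M2 := fun x => by
    rw [RCLike.norm_conj]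
    exact (norm_sub_le _ _).trans (add_le_add (hM1 x) (hM2 x))
  set N2 : ℝ := ∫ x, ‖Y t x - Y 0 x‖ ^ 2 ∂μ with hN2
  have hsq : ∀ x, ‖conj (Y t x - Y 0 x)‖ ^ 2 = ‖Y t x - Y 0 x‖ ^ 2 := fun x => by rw [RCLike.norm_conj]
  have hZi : Integrable (fun x => ‖Y t x - Y 0 x‖ ^ 2) μ := by
    refine Integrable.of_bound ((hmt.sub hm0).norm.pow 2) ((M1 + M2) ^ 2) (Eventually.of_forall fun x => ?_)
    rw [Real.norm_of_nonneg (by positivity)]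
    have := hZb x
    rw [RCLike.norm_conj] at this
    exact pow_le_pow_left₀ (norm_nonneg _) this 2
  have hYi : ∀ s ∈ Icc 0 t, Integrable (fun x => conj (Y t x - Y 0 x) * Y s x) μ := by
    intro s hs
    obtain ⟨M', hM'⟩ := hb s hs
    refine Integrable.of_bound (hZm.mul (hm s (hI s hs))) ((M1 + M2) * M') (Eventually.of_forall fun x => ?_)
    rw [norm_mul]
    exact mul_le_mul (hZb x) (hM' x) (norm_nonneg _) ((norm_nonneg _).trans (hZb x))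
  have hk : ∀ s ∈ Icc 0 t, HasDerivAt (fun s => ∫ x, conj (Y t x - Y 0 x) * Y s x ∂μ)
      (∫ x, conj (Y t x - Y 0 x) * Y' s x ∂μ) s := by
    intro s hs
    have hev : ∀ᶠ s' in 𝓝 s, AEStronglyMeasurable (fun x => conj (Y t x - Y 0 x) * Y s' x) μ := by
      filter_upwards [Metric.ball_mem_nhds s one_pos] with s' hs'
      exact hZm.mul (hm s' (hIb s hs s' hs'))
    refine (hasDerivAt_integral_of_dominated_loc_of_deriv_le (F := fun s x => conj (Y t x - Y 0 x) * Y s x)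
      (F' := fun s x => conj (Y t x - Y 0 x) * Y' s x) (bound := fun _ => (M1 + M2) * M)
      (Metric.ball_mem_nhds s one_pos) hev (hYi s hs) (hZm.mul (hm' s (hI s hs)))
      (Eventually.of_forall fun x s' hs' => ?_) (integrable_const _)
      (Eventually.of_forall fun x s' _ => (hd x s').const_mul _)).2
    rw [norm_mul]
    exact mul_le_mul (hZb x) (hM s' (hIb s hs s' hs') x) (norm_nonneg _) ((norm_nonneg _).trans (hZb x))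
  have hbd : ∀ s ∈ Icc 0 t, ‖∫ x, conj (Y t x - Y 0 x) * Y' s x ∂μ‖ ≤ (t⁻¹ * N2 + t * B) / 2 := by
    intro s hs
    have hM' : ∀ x, ‖Y' s x‖ ≤ M := hM s (hI s hs)
    have hYi' : Integrable (fun x => ‖Y' s x‖ ^ 2) μ := by
      refine Integrable.of_bound ((hm' s (hI s hs)).norm.pow 2) (M ^ 2) (Eventually.of_forall fun x => ?_)
      rw [Real.norm_of_nonneg (by positivity)]
      exact pow_le_pow_left₀ (norm_nonneg _) (hM' x) 2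
    calc ‖∫ x, conj (Y t x - Y 0 x) * Y' s x ∂μ‖ ≤ ∫ x, ‖conj (Y t x - Y 0 x) * Y' s x‖ ∂μ := norm_integral_le_integral_norm _
      _ ≤ ∫ x, ((t⁻¹ / 2) * ‖Y t x - Y 0 x‖ ^ 2 + (t / 2) * ‖Y' s x‖ ^ 2) ∂μ := by
        refine integral_mono_of_nonneg (Eventually.of_forall fun x => norm_nonneg _)
          ((hZi.const_mul _).add (hYi'.const_mul _)) (Eventually.of_forall fun x => ?_)
        simp only []
        rw [norm_mul, RCLike.norm_conj]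
        have h1 : 0 ≤ (‖Y t x - Y 0 x‖ - t * ‖Y' s x‖) ^ 2 := sq_nonneg _
        have h2 : t⁻¹ * (‖Y t x - Y 0 x‖ - t * ‖Y' s x‖) ^ 2 = t⁻¹ * ‖Y t x - Y 0 x‖ ^ 2 -
            2 * (‖Y t x - Y 0 x‖ * ‖Y' s x‖) + t * ‖Y' s x‖ ^ 2 := by
          field_simp
          ring
        have h3 : 0 ≤ t⁻¹ * (‖Y t x - Y 0 x‖ - t * ‖Y' s x‖) ^ 2 := mul_nonneg (by positivity) h1
        rw [h2] at h3
        linarith
      _ = (t⁻¹ / 2) * N2 + (t / 2) * ∫ x, ‖Y' s x‖ ^ 2 ∂μ := by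
        rw [integral_add (hZi.const_mul _) (hYi'.const_mul _), integral_const_mul, integral_const_mul]
      _ ≤ (t⁻¹ * N2 + t * B) / 2 := by
        have := mul_le_mul_of_nonneg_left (hB s hs) (by positivity : (0 : ℝ) ≤ t / 2)
        linarith
  have hmvt := Convex.norm_image_sub_le_of_norm_hasDerivWithin_le (s := Icc 0 t)
    (fun s hs => (hk s hs).hasDerivWithinAt) hbd (convex_Icc 0 t) (left_mem_Icc.2 ht) (right_mem_Icc.2 ht)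
  rw [← integral_sub (hYi t mt) (hYi 0 m0)] at hmvt
  have he : (∫ x, (conj (Y t x - Y 0 x) * Y t x - conj (Y t x - Y 0 x) * Y 0 x) ∂μ) = ((N2 : ℝ) : ℂ) := by
    rw [hN2, ← integral_complex_ofReal]
    congr 1
    funext x
    rw [← mul_sub, mul_comm, Complex.mul_conj, Complex.normSq_eq_norm_sq]
  rw [he, Complex.norm_real, Real.norm_of_nonneg (integral_nonneg fun x => by positivity), sub_zero,
    Real.norm_of_nonneg ht] at hmvt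
  have h4 : (t⁻¹ * N2 + t * B) / 2 * t = (N2 + t ^ 2 * B) / 2 := by
    field_simp
  rw [h4] at hmvt
  linarith

/-- sum of four terms -/
theorem TRN_sum {X : Type*} [MeasurableSpace X] {μ : Measure X} (x q l e w : X → ℂ) (a1 a2 a3 a4 : ℝ)
    (hq : Integrable (fun h => ‖q h‖ ^ 2) μ) (hl : Integrable (fun h => ‖l h‖ ^ 2) μ) (he : Integrable (fun h => ‖e h‖ ^ 2) μ)
    (hw : Integrable (fun h => ‖w h‖ ^ 2) μ)
    (h : ∀ h, ‖x h‖ ≤ a1 * ‖q h‖ + a2 * ‖l h‖ + a3 * ‖e h‖ + a4 * ‖w h‖) :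
    ∫ h, ‖x h‖ ^ 2 ∂μ ≤ 4 * (a1 ^ 2 * (∫ h, ‖q h‖ ^ 2 ∂μ) + a2 ^ 2 * (∫ h, ‖l h‖ ^ 2 ∂μ) + a3 ^ 2 * (∫ h, ‖e h‖ ^ 2 ∂μ) +
      a4 ^ 2 * (∫ h, ‖w h‖ ^ 2 ∂μ)) := by
  have i1 : Integrable (fun h => 4 * a1 ^ 2 * ‖q h‖ ^ 2) μ := hq.const_mul _
  have i2 : Integrable (fun h => 4 * a2 ^ 2 * ‖l h‖ ^ 2) μ := hl.const_mul _
  have i3 : Integrable (fun h => 4 * a3 ^ 2 * ‖e h‖ ^ 2) μ := he.const_mul _
  have i4 : Integrable (fun h => 4 * a4 ^ 2 * ‖w h‖ ^ 2) μ := hw.const_mul _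
  have i12 : Integrable (fun h => 4 * a1 ^ 2 * ‖q h‖ ^ 2 + 4 * a2 ^ 2 * ‖l h‖ ^ 2) μ := i1.add i2
  have i123 : Integrable (fun h => 4 * a1 ^ 2 * ‖q h‖ ^ 2 + 4 * a2 ^ 2 * ‖l h‖ ^ 2 + 4 * a3 ^ 2 * ‖e h‖ ^ 2) μ := i12.add i3
  calc ∫ h, ‖x h‖ ^ 2 ∂μ ≤ ∫ h, (4 * a1 ^ 2 * ‖q h‖ ^ 2 + 4 * a2 ^ 2 * ‖l h‖ ^ 2 + 4 * a3 ^ 2 * ‖e h‖ ^ 2 + 4 * a4 ^ 2 * ‖w h‖ ^ 2) ∂μ := by
        refine integral_mono_of_nonneg (Eventually.of_forall fun x => by positivity)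
          (i123.add i4) (Eventually.of_forall fun y => ?_)
        simp only []
        have h1 := pow_le_pow_left₀ (norm_nonneg _) (h y) 2
        refine h1.trans ?_
        nlinarith [sq_nonneg (a1 * ‖q y‖ - a2 * ‖l y‖), sq_nonneg (a1 * ‖q y‖ - a3 * ‖e y‖), sq_nonneg (a1 * ‖q y‖ - a4 * ‖w y‖),
          sq_nonneg (a2 * ‖l y‖ - a3 * ‖e y‖), sq_nonneg (a2 * ‖l y‖ - a4 * ‖w y‖), sq_nonneg (a3 * ‖e y‖ - a4 * ‖w y‖)]
    _ = _ := by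
      rw [integral_add i123 i4, integral_add i12 i3, integral_add i1 i2, integral_const_mul, integral_const_mul, integral_const_mul, integral_const_mul]
      ring

/-- linearity in the second argument -/
theorem TRN_Wadd (f φ1 φ2 : ℍ → ℂ) (c : ℂ) (hf : Continuous f) (hf2 : HasCompactSupport f) (h1 : Continuous φ1)
    (h2 : Continuous φ2) (g : SL(2, ℝ)) : Wf f (fun z => c * φ1 z + φ2 z) g = c * Wf f φ1 g + Wf f φ2 g := by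
  have hφ1 : Continuous (fun z : ℍ => φ1 (g • z)) := h1.comp (continuous_const_smul g)
  have hφ2 : Continuous (fun z : ℍ => φ2 (g • z)) := h2.comp (continuous_const_smul g)
  have i1 : Integrable (fun z : ℍ => f z * φ1 (g • z)) := (hf.mul hφ1).integrable_of_hasCompactSupport hf2.mul_right
  have i2 : Integrable (fun z : ℍ => f z * φ2 (g • z)) := (hf.mul hφ2).integrable_of_hasCompactSupport hf2.mul_right
  unfold Wf
  rw [← integral_const_mul, ← integral_add (i1.const_mul _) i2]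
  congr 1
  funext z
  ring

/-- the compact box -/
def TRN_K : Set ℍ := (fun p : ℝ × ℝ => pt p.1 p.2) '' (Icc (-1) 1 ×ˢ Icc (-1) 1)

theorem TRN_Kc : IsCompact TRN_K := (isCompact_Icc.prod isCompact_Icc).image FL0_pt

theorem TRN_mem (z : ℍ) (h1 : |z.re| ≤ 1) (h2 : |Real.log z.im| ≤ 1) : z ∈ TRN_K := by
  refine ⟨(z.re, Real.log z.im), ⟨⟨(abs_le.1 h1).1, (abs_le.1 h1).2⟩, ⟨(abs_le.1 h2).1, (abs_le.1 h2).2⟩⟩, ?_⟩
  apply UpperHalfPlane.ext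
  apply Complex.ext
  · simp [pt]
  · simp [pt, Real.exp_log z.im_pos]

/-- the trivial bound -/
theorem TRN_sup (R A m : ℝ) (c φ : ℍ → ℂ) (g : SL(2, ℝ)) (hc : TB (1 / 4) c) (hA : ∀ z, ‖c z‖ ≤ A) (hm : ∀ z, ‖φ z‖ ≤ m) :
    ‖Wf (pk R c) φ g‖ ≤ A * Real.exp 1 * m * (volume TRN_K).toReal := by
  have hA0 : 0 ≤ A := (norm_nonneg _).trans (hA I)
  have hm0 : 0 ≤ m := (norm_nonneg _).trans (hm I)
  have hp : ∀ z : ℍ, z ∉ TRN_K → c z = 0 := by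
    intro z hz
    by_contra h
    obtain ⟨h1, h2⟩ := hc.2 z h
    exact hz (TRN_mem z (by linarith) (by linarith))
  have e : Wf (pk R c) φ g = ∫ z in TRN_K, pk R c z * φ (g • z) := by
    unfold Wf
    refine (setIntegral_eq_integral_of_forall_compl_eq_zero fun z hz => ?_).symm
    unfold pk
    rw [hp z hz]
    simp
  rw [e]
  refine norm_setIntegral_le_of_norm_le_const TRN_Kc.measure_lt_top fun z hz => ?_
  rw [norm_mul]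
  refine mul_le_mul ?_ (hm _) (norm_nonneg _) (by positivity)
  unfold pk
  rw [norm_mul]
  refine mul_le_mul (hA z) ?_ (norm_nonneg _) hA0
  obtain ⟨p, ⟨-, hp2⟩, rfl⟩ := hz
  have him : (pt p.1 p.2).im = Real.exp p.2 := rfl
  rw [Complex.norm_cpow_eq_rpow_re_of_pos (pt p.1 p.2).im_pos]
  have hre : ((1 / 2 : ℂ) + (R : ℂ) * Complex.I).re = 1 / 2 := by simp
  rw [hre, him, ← Real.exp_mul]
  apply Real.exp_le_exp.2
  have := hp2.2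
  linarith

/-- the pure computation -/
theorem TRN_alg (R ϵ v C0 : ℝ) (Q W L P WV Wx : ℂ) (hR : 1 ≤ R) (hϵ : 0 ≤ ϵ) (hv : |v| ≤ C0)
    (hF : (1 + 2 * (R : ℂ) * Complex.I) * W = L - P) (hP : P = ((R ^ 2 * ϵ : ℝ) : ℂ) * WV + Wx) :
    ‖((R * ϵ / 2 * v : ℝ) : ℂ) * Complex.I * Q - W‖ ≤ (ϵ * C0) * ‖Q‖ + R⁻¹ * ‖L‖ + (R * ϵ) * ‖WV - (v : ℂ) * Q‖ +
      R⁻¹ * ‖Wx‖ := by
  have hR0 : 0 < R := by linarith
  have hC0 : 0 ≤ C0 := (abs_nonneg _).trans hv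
  have hD : R ≤ ‖(1 + 2 * (R : ℂ) * Complex.I)‖ := by
    have h1 := Complex.abs_im_le_norm (1 + 2 * (R : ℂ) * Complex.I)
    have h2 : (1 + 2 * (R : ℂ) * Complex.I).im = 2 * R := by simp
    rw [h2, abs_of_pos (by linarith)] at h1
    linarith
  have key : (1 + 2 * (R : ℂ) * Complex.I) * (((R * ϵ / 2 * v : ℝ) : ℂ) * Complex.I * Q - W) =
      ((R * ϵ / 2 * v : ℝ) : ℂ) * Complex.I * Q - L + ((R ^ 2 * ϵ : ℝ) : ℂ) * (WV - (v : ℂ) * Q) + Wx := by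
    rw [mul_sub, hF, hP]
    push_cast
    linear_combination ((R : ℂ) ^ 2 * ϵ * v * Q) * Complex.I_sq
  have h3 : R * ‖((R * ϵ / 2 * v : ℝ) : ℂ) * Complex.I * Q - W‖ ≤
      R * ϵ / 2 * C0 * ‖Q‖ + ‖L‖ + R ^ 2 * ϵ * ‖WV - (v : ℂ) * Q‖ + ‖Wx‖ := by
    calc R * ‖((R * ϵ / 2 * v : ℝ) : ℂ) * Complex.I * Q - W‖
        ≤ ‖(1 + 2 * (R : ℂ) * Complex.I)‖ * ‖((R * ϵ / 2 * v : ℝ) : ℂ) * Complex.I * Q - W‖ :=
          mul_le_mul_of_nonneg_right hD (norm_nonneg _)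
      _ = ‖((R * ϵ / 2 * v : ℝ) : ℂ) * Complex.I * Q - L + ((R ^ 2 * ϵ : ℝ) : ℂ) * (WV - (v : ℂ) * Q) + Wx‖ := by
          rw [← norm_mul, key]
      _ ≤ ‖((R * ϵ / 2 * v : ℝ) : ℂ) * Complex.I * Q‖ + ‖L‖ + ‖((R ^ 2 * ϵ : ℝ) : ℂ) * (WV - (v : ℂ) * Q)‖ + ‖Wx‖ := by
          refine (norm_add_le _ _).trans (add_le_add ((norm_add_le _ _).trans (add_le_add (norm_sub_le _ _) le_rfl)) le_rfl)
      _ ≤ _ := by
          have e1 : ‖((R * ϵ / 2 * v : ℝ) : ℂ) * Complex.I * Q‖ ≤ R * ϵ / 2 * C0 * ‖Q‖ := by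
            rw [norm_mul, norm_mul, Complex.norm_I, mul_one, Complex.norm_real, Real.norm_eq_abs, abs_mul,
              abs_of_nonneg (by positivity : (0 : ℝ) ≤ R * ϵ / 2)]
            gcongr
          have e2 : ‖((R ^ 2 * ϵ : ℝ) : ℂ) * (WV - (v : ℂ) * Q)‖ = R ^ 2 * ϵ * ‖WV - (v : ℂ) * Q‖ := by
            rw [norm_mul, Complex.norm_real, Real.norm_of_nonneg (by positivity)]
          rw [e2]
          linarith
  have h4 : ‖((R * ϵ / 2 * v : ℝ) : ℂ) * Complex.I * Q - W‖ ≤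
      R⁻¹ * (R * ϵ / 2 * C0 * ‖Q‖ + ‖L‖ + R ^ 2 * ϵ * ‖WV - (v : ℂ) * Q‖ + ‖Wx‖) := by
    rw [inv_mul_eq_div, le_div_iff₀ hR0]
    linarith
  refine h4.trans ?_
  have e3 : R⁻¹ * (R * ϵ / 2 * C0 * ‖Q‖ + ‖L‖ + R ^ 2 * ϵ * ‖WV - (v : ℂ) * Q‖ + ‖Wx‖) =
      ϵ * C0 * ‖Q‖ / 2 + R⁻¹ * ‖L‖ + (R * ϵ) * ‖WV - (v : ℂ) * Q‖ + R⁻¹ * ‖Wx‖ := by
    field_simp
  rw [e3]
  have : 0 ≤ ϵ * C0 * ‖Q‖ := by positivity
  linarith

/-- bounded functions on `ℍ` -/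
theorem TRN_bd (Γ : Subgroup SL(2, ℝ)) (hΓ : QU.SurfaceGroup Γ) (φ : ℍ → ℂ) (hφ : InvC Γ φ) : ∃ m, ∀ z, ‖φ z‖ ≤ m := by
  obtain ⟨m, hm⟩ := (A_GBD Γ ℂ (fun g => φ (g • I)) hΓ
    ⟨hφ.1.comp (continuous_id.smul continuous_const), fun γ g => by
      show φ (((γ : SL(2, ℝ)) * g) • I) = φ (g • I)
      rw [mul_smul]; exact hφ.2 γ _⟩).1
  exact ⟨m, fun z => by have := hm (toSL2R z); rwa [toSL2R_smul_I] at this⟩

/-- integrability -/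
theorem TRN_int (Γ : Subgroup SL(2, ℝ)) (F : Set ℍ) (hΓ : QU.SurfaceGroup Γ) (hFd : QU.NiceDom Γ F) (u : SL(2, ℝ) → ℂ)
    (hu : InvG Γ u) : Integrable (fun g => ‖u g‖ ^ 2) (mG.restrict (dG F)) := by
  obtain ⟨m, hm⟩ := (A_GBD Γ ℂ u hΓ hu).1
  have hfin := (A_GFD Γ F hΓ hFd).1.2.2.1
  have : IsFiniteMeasure (mG.restrict (dG F)) := ⟨by rwa [Measure.restrict_apply_univ]⟩
  refine Integrable.of_bound (hu.1.norm.pow 2).aestronglyMeasurable (m ^ 2) (Eventually.of_forall fun x => ?_)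
  rw [Real.norm_of_nonneg (by positivity)]
  exact pow_le_pow_left₀ (norm_nonneg _) (hm x) 2

/-- amplitudes are bounded -/
theorem TRN_AC {k : ℕ} {A m w l : ℝ} {c : ℍ → ℂ} (h : AC k A m w l c) (z : ℍ) : ‖c z‖ ≤ A := by
  have h1 := h.der 0 (Nat.zero_le _) (z.re, Real.log z.im)
  rw [norm_iteratedFDeriv_zero, pow_zero, mul_one] at h1
  have h2 : pt z.re (Real.log z.im) = z := by
    apply UpperHalfPlane.ext
    apply Complex.ext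
    · simp [pt]
    · simp [pt, Real.exp_log z.im_pos]
  simpa [cc, h2] using h1

/-- the numbers -/
theorem TRN_num (R η ϵ C0 C1 K N q l e x nχ X : ℝ) (hR : 1 ≤ R) (hη : 0 < η) (hη2 : η ≤ 1 / 20) (hϵ : 0 ≤ ϵ) (hK : 0 ≤ K)
    (hC1 : 0 ≤ C1) (hN : 0 ≤ N) (hy : R * ϵ ≤ R ^ (η / 8))
    (hq : R * q ≤ 2 * N) (hl : R * l ≤ C1 * R ^ (3 / 2 : ℝ) * N) (he : R * e ≤ K * R ^ (-η) * N)
    (hx : R * x ≤ 2 * nχ) (hn : nχ ≤ R ^ (2 - 1 / 60 : ℝ) * N)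
    (hX : X ≤ 4 * ((ϵ * C0) ^ 2 * q + R⁻¹ ^ 2 * l + (R * ϵ) ^ 2 * e + R⁻¹ ^ 2 * x)) :
    R * X ≤ 4 * (2 * C0 ^ 2 + C1 + K + 4) * (R ^ (-(η / 8)) * N) := by
  have hR0 : 0 < R := by linarith
  have p1 : (R * ϵ) ^ 2 ≤ R ^ (η / 4) := by
    have h1 := pow_le_pow_left₀ (by positivity) hy 2
    refine h1.trans (le_of_eq ?_)
    rw [← Real.rpow_natCast, ← Real.rpow_mul hR0.le]
    congr 1
    push_cast
    ring
  have p2 : ϵ ^ 2 ≤ R ^ (-(η / 8)) := by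
    have h1 : ϵ ^ 2 = (R * ϵ) ^ 2 * R ^ (-2 : ℝ) := by
      rw [Real.rpow_neg hR0.le, Real.rpow_two]
      field_simp
    rw [h1]
    calc (R * ϵ) ^ 2 * R ^ (-2 : ℝ) ≤ R ^ (η / 4) * R ^ (-2 : ℝ) := mul_le_mul_of_nonneg_right p1 (Real.rpow_nonneg hR0.le _)
      _ = R ^ (η / 4 + -2) := (Real.rpow_add hR0 _ _).symm
      _ ≤ _ := Real.rpow_le_rpow_of_exponent_le hR (by linarith)
  have p3 : R⁻¹ ^ 2 * R ^ (3 / 2 : ℝ) ≤ R ^ (-(η / 8)) := by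
    have h1 : R⁻¹ ^ 2 = R ^ (-2 : ℝ) := by
      rw [Real.rpow_neg hR0.le, Real.rpow_two, inv_pow]
    rw [h1, ← Real.rpow_add hR0]
    exact Real.rpow_le_rpow_of_exponent_le hR (by linarith)
  have p4 : (R * ϵ) ^ 2 * R ^ (-η) ≤ R ^ (-(η / 8)) := by
    calc (R * ϵ) ^ 2 * R ^ (-η) ≤ R ^ (η / 4) * R ^ (-η) := mul_le_mul_of_nonneg_right p1 (Real.rpow_nonneg hR0.le _)
      _ = R ^ (η / 4 + -η) := (Real.rpow_add hR0 _ _).symm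
      _ ≤ _ := Real.rpow_le_rpow_of_exponent_le hR (by linarith)
  have p5 : R⁻¹ ^ 2 * R ^ (2 - 1 / 60 : ℝ) ≤ R ^ (-(η / 8)) := by
    have h1 : R⁻¹ ^ 2 = R ^ (-2 : ℝ) := by
      rw [Real.rpow_neg hR0.le, Real.rpow_two, inv_pow]
    rw [h1, ← Real.rpow_add hR0]
    exact Real.rpow_le_rpow_of_exponent_le hR (by linarith)
  have hy0 : 0 ≤ R ^ (-(η / 8)) * N := mul_nonneg (Real.rpow_nonneg hR0.le _) hN
  have s1 : (ϵ * C0) ^ 2 * (R * q) ≤ 2 * C0 ^ 2 * (R ^ (-(η / 8)) * N) := by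
    calc (ϵ * C0) ^ 2 * (R * q) ≤ (ϵ * C0) ^ 2 * (2 * N) := mul_le_mul_of_nonneg_left hq (sq_nonneg _)
      _ = ϵ ^ 2 * (2 * C0 ^ 2 * N) := by ring
      _ ≤ R ^ (-(η / 8)) * (2 * C0 ^ 2 * N) := mul_le_mul_of_nonneg_right p2 (by positivity)
      _ = _ := by ring
  have s2 : R⁻¹ ^ 2 * (R * l) ≤ C1 * (R ^ (-(η / 8)) * N) := by
    calc R⁻¹ ^ 2 * (R * l) ≤ R⁻¹ ^ 2 * (C1 * R ^ (3 / 2 : ℝ) * N) := mul_le_mul_of_nonneg_left hl (sq_nonneg _)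
      _ = R⁻¹ ^ 2 * R ^ (3 / 2 : ℝ) * (C1 * N) := by ring
      _ ≤ R ^ (-(η / 8)) * (C1 * N) := mul_le_mul_of_nonneg_right p3 (by positivity)
      _ = _ := by ring
  have s3 : (R * ϵ) ^ 2 * (R * e) ≤ K * (R ^ (-(η / 8)) * N) := by
    calc (R * ϵ) ^ 2 * (R * e) ≤ (R * ϵ) ^ 2 * (K * R ^ (-η) * N) := mul_le_mul_of_nonneg_left he (sq_nonneg _)
      _ = (R * ϵ) ^ 2 * R ^ (-η) * (K * N) := by ring
      _ ≤ R ^ (-(η / 8)) * (K * N) := mul_le_mul_of_nonneg_right p4 (by positivity)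
      _ = _ := by ring
  have s4 : R⁻¹ ^ 2 * (R * x) ≤ 2 * (R ^ (-(η / 8)) * N) := by
    calc R⁻¹ ^ 2 * (R * x) ≤ R⁻¹ ^ 2 * (2 * (R ^ (2 - 1 / 60 : ℝ) * N)) :=
          mul_le_mul_of_nonneg_left (hx.trans (by linarith)) (sq_nonneg _)
      _ = R⁻¹ ^ 2 * R ^ (2 - 1 / 60 : ℝ) * (2 * N) := by ring
      _ ≤ R ^ (-(η / 8)) * (2 * N) := mul_le_mul_of_nonneg_right p5 (by positivity)
      _ = _ := by ring
  have s5 : R * X ≤ 4 * ((ϵ * C0) ^ 2 * (R * q) + R⁻¹ ^ 2 * (R * l) + (R * ϵ) ^ 2 * (R * e) + R⁻¹ ^ 2 * (R * x)) := by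
    calc R * X ≤ R * (4 * ((ϵ * C0) ^ 2 * q + R⁻¹ ^ 2 * l + (R * ϵ) ^ 2 * e + R⁻¹ ^ 2 * x)) :=
          mul_le_mul_of_nonneg_left hX hR0.le
      _ = _ := by ring
  refine s5.trans ?_
  calc 4 * ((ϵ * C0) ^ 2 * (R * q) + R⁻¹ ^ 2 * (R * l) + (R * ϵ) ^ 2 * (R * e) + R⁻¹ ^ 2 * (R * x))
      ≤ 4 * (2 * C0 ^ 2 * (R ^ (-(η / 8)) * N) + C1 * (R ^ (-(η / 8)) * N) + K * (R ^ (-(η / 8)) * N) + 2 * (R ^ (-(η / 8)) * N)) := by
        linarith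
    _ ≤ _ := by linarith

/-- the integrand -/
noncomputable def TRN_X (β α : ℝ → ℝ) (V : ℍ → ℝ) (w l R ϵ : ℝ) (φ : ℍ → ℂ) (h : SL(2, ℝ)) : ℂ :=
  ((R * ϵ / 2 * V (h • I) : ℝ) : ℂ) * Complex.I * QQ β α w l R φ h - Wf (pk R (QU.dY (cw β α w l))) φ h

/-- invariance of the integrand -/
theorem TRN_Xinv (Γ : Subgroup SL(2, ℝ)) (β α : ℝ → ℝ) (V : ℍ → ℝ) (w l R ϵ : ℝ) (φ : ℍ → ℂ) (hφ : InvC Γ φ) (hV : QU.Inv Γ V)
    (hc : TB (1 / 4) (cw β α w l)) : InvG Γ (TRN_X β α V w l R ϵ φ) := by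
  have hd : TB (1 / 4) (QU.dY (cw β α w l)) := (A_FL0.1 _ _ hc).2.2.1
  have t1 := FL1_tst A_FL0 R _ hc
  have t2 := FL1_tst A_FL0 R _ hd
  have g1 : InvG Γ (Wf (pk R (cw β α w l)) φ) := A_FL0.2.2 Γ _ _ t1.1 t1.2 hφ
  have g2 : InvG Γ (Wf (pk R (QU.dY (cw β α w l))) φ) := A_FL0.2.2 Γ _ _ t2.1 t2.2 hφ
  have hVc : Continuous fun h : SL(2, ℝ) => V (h • I) := hV.1.comp (continuous_id.smul continuous_const)
  refine ⟨?_, fun γ g => ?_⟩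
  · unfold TRN_X QQ
    exact (((Complex.continuous_ofReal.comp (continuous_const.mul hVc)).mul continuous_const).mul g1.1).sub g2.1
  · unfold TRN_X QQ
    rw [g1.2 γ g, g2.2 γ g, mul_smul]
    have : V ((γ : SL(2, ℝ)) • g • (I : ℍ)) = V (g • I) := hV.2 γ _
    rw [this]

/-- one step of the estimate -/
theorem TRN_step (hFLP : FLP_stmt) (Γ : Subgroup SL(2, ℝ)) (F : Set ℍ) (α β : ℝ → ℝ) (V : ℍ → ℝ) (w l R η ϵ C0 K Cg A C1 : ℝ)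
    (φ ψ χ : ℍ → ℂ) (hΓ : QU.SurfaceGroup Γ) (hFd : QU.NiceDom Γ F) (hc : TB (1 / 4) (cw β α w l)) (hR : 1 ≤ R) (hη : 0 < η)
    (hη2 : η ≤ 1 / 20) (hϵ : 0 ≤ ϵ) (hK : 0 ≤ K) (hC1 : 0 ≤ C1) (hy : R * ϵ ≤ R ^ (η / 8))
    (hφ2 : QU.CD 2 φ) (hφ : InvC Γ φ) (hψ : InvC Γ ψ) (hχ : InvC Γ χ) (hV : QU.Inv Γ V) (hVb : ∀ z, |V z| ≤ C0)
    (hlap : ∀ z, QU.lap φ z = ((1 / 4 + R ^ 2 : ℝ) : ℂ) * φ z + ψ z)
    (hψχ : ∀ z, ψ z = ((R ^ 2 * ϵ : ℝ) : ℂ) * (((V z : ℝ) : ℂ) * φ z) + χ z)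
    (hχn : nn F χ ≤ R ^ (2 - 1 / 60 : ℝ) * nn F φ)
    (hF1 : ∀ u : ℍ → ℂ, InvC Γ u → R * qn F (cw β α w l) R u ≤ 2 * nn F u)
    (hG : qn F (QU.lap (cw β α w l)) R φ ≤ Cg * (A ^ 2 * w * l ^ 2 / R) * nn F φ)
    (hA : Cg * (A ^ 2 * w * l ^ 2) ≤ C1 * R ^ (3 / 2 : ℝ))
    (hVS : iR F (fun g => ‖Wf (pk R (cw β α w l)) (fun z => ((V z : ℝ) : ℂ) * φ z) g - ((V (g • I) : ℝ) : ℂ) * QQ β α w l R φ g‖ ^ 2) ≤
      K * R ^ (-η) / R * nn F φ) :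
    R * iR F (fun h => ‖TRN_X β α V w l R ϵ φ h‖ ^ 2) ≤ 4 * (2 * C0 ^ 2 + C1 + K + 4) * (R ^ (-(η / 8)) * nn F φ) := by
  have hR0 : 0 < R := by linarith
  have hN : 0 ≤ nn F φ := integral_nonneg fun z => by positivity
  have hl : TB (1 / 4) (QU.lap (cw β α w l)) := (A_FL0.1 _ _ hc).2.2.2.2.1
  have t1 := FL1_tst A_FL0 R _ hc
  have t2 := FL1_tst A_FL0 R _ hl
  have hVφ : InvC Γ (fun z => ((V z : ℝ) : ℂ) * φ z) := by
    refine ⟨(Complex.continuous_ofReal.comp hV.1).mul hφ.1, fun γ z => ?_⟩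
    simp only []
    rw [hV.2 γ z, hφ.2 γ z]
  have g1 : InvG Γ (Wf (pk R (cw β α w l)) φ) := A_FL0.2.2 Γ _ _ t1.1 t1.2 hφ
  have g2 : InvG Γ (Wf (pk R (QU.lap (cw β α w l))) φ) := A_FL0.2.2 Γ _ _ t2.1 t2.2 hφ
  have g3 : InvG Γ (Wf (pk R (cw β α w l)) χ) := A_FL0.2.2 Γ _ _ t1.1 t1.2 hχ
  have g4 : InvG Γ (Wf (pk R (cw β α w l)) (fun z => ((V z : ℝ) : ℂ) * φ z)) := A_FL0.2.2 Γ _ _ t1.1 t1.2 hVφ
  have hVc : Continuous fun h : SL(2, ℝ) => V (h • I) := hV.1.comp (continuous_id.smul continuous_const)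
  have g5 : InvG Γ (fun g => Wf (pk R (cw β α w l)) (fun z => ((V z : ℝ) : ℂ) * φ z) g - ((V (g • I) : ℝ) : ℂ) * QQ β α w l R φ g) := by
    refine ⟨g4.1.sub ((Complex.continuous_ofReal.comp hVc).mul g1.1), fun γ g => ?_⟩
    unfold QQ
    simp only []
    rw [g4.2 γ g, g1.2 γ g, mul_smul]
    have : V ((γ : SL(2, ℝ)) • g • (I : ℍ)) = V (g • I) := hV.2 γ _
    rw [this]
  have hψe : ψ = fun z => ((R ^ 2 * ϵ : ℝ) : ℂ) * (((V z : ℝ) : ℂ) * φ z) + χ z := funext hψχ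
  have hpt : ∀ h : SL(2, ℝ), ‖TRN_X β α V w l R ϵ φ h‖ ≤ (ϵ * C0) * ‖Wf (pk R (cw β α w l)) φ h‖ +
      R⁻¹ * ‖Wf (pk R (QU.lap (cw β α w l))) φ h‖ +
      (R * ϵ) * ‖Wf (pk R (cw β α w l)) (fun z => ((V z : ℝ) : ℂ) * φ z) h - ((V (h • I) : ℝ) : ℂ) * QQ β α w l R φ h‖ +
      R⁻¹ * ‖Wf (pk R (cw β α w l)) χ h‖ := by
    intro h
    refine TRN_alg R ϵ (V (h • I)) C0 _ _ _ (Wf (pk R (cw β α w l)) ψ h) _ _ hR hϵ (hVb _)
      (hFLP Γ R (cw β α w l) φ ψ hc hφ2 hφ hψ hlap h) ?_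
    rw [hψe]
    exact TRN_Wadd _ _ _ _ t1.1 t1.2 hVφ.1 hχ.1 h
  have hsum := TRN_sum (μ := mG.restrict (dG F)) _ _ _ _ _ _ _ _ _ (TRN_int Γ F hΓ hFd _ g1) (TRN_int Γ F hΓ hFd _ g2)
    (TRN_int Γ F hΓ hFd _ g5) (TRN_int Γ F hΓ hFd _ g3) hpt
  refine TRN_num R η ϵ C0 C1 K (nn F φ) _ _ _ _ (nn F χ) _ hR hη hη2 hϵ hK hC1 hN hy (hF1 φ hφ) ?_ ?_ (hF1 χ hχ) hχn hsum
  · calc R * qn F (QU.lap (cw β α w l)) R φ ≤ R * (Cg * (A ^ 2 * w * l ^ 2 / R) * nn F φ) := mul_le_mul_of_nonneg_left hG hR0.le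
      _ = Cg * (A ^ 2 * w * l ^ 2) * nn F φ := by field_simp
      _ ≤ _ := mul_le_mul_of_nonneg_right hA hN
  · calc R * iR F (fun g => ‖Wf (pk R (cw β α w l)) (fun z => ((V z : ℝ) : ℂ) * φ z) g - ((V (g • I) : ℝ) : ℂ) * QQ β α w l R φ g‖ ^ 2)
        ≤ R * (K * R ^ (-η) / R * nn F φ) := mul_le_mul_of_nonneg_left hVS hR0.le
      _ = _ := by field_simp

/-- derivative of the phase -/
theorem TRN_thd (V : ℍ → ℝ) (hV : Continuous V) (κ : ℝ) (g : SL(2, ℝ)) (s : ℝ) :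
    HasDerivAt (fun s => th V κ s g) (κ * V ((g * aM s) • I)) s := by
  have hc : Continuous fun s : ℝ => V ((g * aM s) • I) :=
    hV.comp ((continuous_const.mul A_GLC.2.2.2.1).smul continuous_const)
  exact ((hc.integral_hasStrictDerivAt 0 s).hasDerivAt).const_mul κ

/-- continuity of the phase -/
theorem TRN_thc (V : ℍ → ℝ) (hV : Continuous V) (κ s : ℝ) : Continuous (fun g : SL(2, ℝ) => th V κ s g) := by
  have : SecondCountableTopology SL(2, ℝ) := A_GLC.2.1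
  unfold th
  refine continuous_const.mul ?_
  exact intervalIntegral.continuous_parametric_intervalIntegral_of_continuous' (f := fun (g : SL(2, ℝ)) s => V ((g * aM s) • I))
    (hV.comp ((continuous_fst.mul (A_GLC.2.2.2.1.comp continuous_snd)).smul continuous_const)) 0 s

/-- the path -/
noncomputable def TRN_Y (β α : ℝ → ℝ) (V : ℍ → ℝ) (l R ϵ : ℝ) (φ : ℍ → ℂ) (s : ℝ) (g : SL(2, ℝ)) : ℂ :=
  Complex.exp (((th V (R * ϵ / 2) s g : ℝ) : ℂ) * Complex.I) * PT β α (w0 R) l R s φ g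

/-- its derivative -/
noncomputable def TRN_Y' (β α : ℝ → ℝ) (V : ℍ → ℝ) (l R ϵ : ℝ) (φ : ℍ → ℂ) (s : ℝ) (g : SL(2, ℝ)) : ℂ :=
  Complex.exp (((th V (R * ϵ / 2) s g : ℝ) : ℂ) * Complex.I) * (Complex.exp (((R * s : ℝ) : ℂ) * Complex.I) *
    TRN_X β α V (w0 R * Real.exp (-s)) l R ϵ φ (g * aM s))

theorem TRN_Yd (hTDE : TDE_stmt) (Γ : Subgroup SL(2, ℝ)) (α β : ℝ → ℝ) (V : ℍ → ℝ) (l R ϵ : ℝ) (φ : ℍ → ℂ)
    (hΓ : QU.SurfaceGroup Γ) (hα : BA (1 / 8) α) (hβ : BB (1 / 8) β) (hR : 0 < R) (hl : 0 < l) (hφ : InvC Γ φ) (hV : Continuous V)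
    (g : SL(2, ℝ)) (s : ℝ) : HasDerivAt (fun s => TRN_Y β α V l R ϵ φ s g) (TRN_Y' β α V l R ϵ φ s g) s := by
  have h1 := (((TRN_thd V hV (R * ϵ / 2) g s).ofReal_comp).mul_const Complex.I).cexp
  have h2 := hTDE Γ α β (w0 R) l R φ hΓ hα hβ (Real.rpow_pos_of_pos hR _) hl hφ g s
  refine (h1.mul h2).congr_deriv ?_
  unfold TRN_Y' TRN_X PT
  push_cast
  ring

theorem TRN_Y'n (β α : ℝ → ℝ) (V : ℍ → ℝ) (l R ϵ : ℝ) (φ : ℍ → ℂ) (s : ℝ) (g : SL(2, ℝ)) :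
    ‖TRN_Y' β α V l R ϵ φ s g‖ = ‖TRN_X β α V (w0 R * Real.exp (-s)) l R ϵ φ (g * aM s)‖ := by
  unfold TRN_Y'
  rw [norm_mul, norm_mul, Complex.norm_exp_ofReal_mul_I, Complex.norm_exp_ofReal_mul_I, one_mul, one_mul]

theorem TRN_Yn (β α : ℝ → ℝ) (V : ℍ → ℝ) (l R ϵ : ℝ) (φ : ℍ → ℂ) (s : ℝ) (g : SL(2, ℝ)) :
    ‖TRN_Y β α V l R ϵ φ s g‖ = ‖QQ β α (w0 R * Real.exp (-s)) l R φ (g * aM s)‖ := by
  unfold TRN_Y PT
  rw [norm_mul, norm_mul, Complex.norm_exp_ofReal_mul_I, Complex.norm_exp_ofReal_mul_I, one_mul, one_mul]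

theorem TRN_Yc (Γ : Subgroup SL(2, ℝ)) (α β : ℝ → ℝ) (V : ℍ → ℝ) (l R ϵ : ℝ) (φ : ℍ → ℂ)
    (hφ : InvC Γ φ) (hV : Continuous V) (s : ℝ) (hc : TB (1 / 4) (cw β α (w0 R * Real.exp (-s)) l)) :
    Continuous (TRN_Y β α V l R ϵ φ s) := by
  have t1 := FL1_tst A_FL0 R _ hc
  have g1 : InvG Γ (Wf (pk R (cw β α (w0 R * Real.exp (-s)) l)) φ) := A_FL0.2.2 Γ _ _ t1.1 t1.2 hφ
  unfold TRN_Y PT QQ
  exact (Complex.continuous_exp.comp ((Complex.continuous_ofReal.comp (TRN_thc V hV _ s)).mul continuous_const)).mul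
    (continuous_const.mul (g1.1.comp (continuous_id.mul continuous_const)))

theorem TRN_Yc' (Γ : Subgroup SL(2, ℝ)) (α β : ℝ → ℝ) (V : ℍ → ℝ) (l R ϵ : ℝ) (φ : ℍ → ℂ)
    (hφ : InvC Γ φ) (hV : QU.Inv Γ V) (s : ℝ) (hc : TB (1 / 4) (cw β α (w0 R * Real.exp (-s)) l)) :
    Continuous (TRN_Y' β α V l R ϵ φ s) := by
  have g1 := TRN_Xinv Γ β α V _ l R ϵ φ hφ hV hc
  unfold TRN_Y'
  exact (Complex.continuous_exp.comp ((Complex.continuous_ofReal.comp (TRN_thc V hV.1 _ s)).mul continuous_const)).mul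
    (continuous_const.mul (g1.1.comp (continuous_id.mul continuous_const)))

theorem TRN_proof (hTDE : TDE_stmt) (hFLP : FLP_stmt) (hVSP : VSP_stmt) (hGFB : GFB_stmt) (hACC : ACC_stmt) (hF1 : F1_stmt)
    (hQPS : QPS_stmt) (hCWB : CWB_stmt) : TRN_stmt := by
  intro Γ F α β κ C0 a η hΓ hFd hα hβ hκ hC0 ha hη hη2
  obtain ⟨RF, hRF1, hF1'⟩ := hF1 α β hα hβ
  obtain ⟨K, RV, hK, hRV1, hVSP'⟩ := hVSP Γ F α β κ C0 η hΓ hFd hα hβ hκ hC0 hη hη2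
  obtain ⟨Cg, hCg, hGFB'⟩ := hGFB
  obtain ⟨Ca, hCa, hACC'⟩ := hACC 8 α β hα hβ
  obtain ⟨RQ, hRQ1, hQPS'⟩ := hQPS Γ F κ C0 a η hΓ hFd hκ hC0 ha hη hη2
  set Ct : ℝ := 4 * (2 * C0 ^ 2 + Cg * Ca ^ 2 + K + 4) with hCt
  have hCt0 : 0 < Ct := by positivity
  -- the asymptotics
  have ev1 : ∀ᶠ R : ℝ in atTop, (Real.log R) ^ a ≤ R ^ (η / 8) := by
    have h := (isLittleO_log_rpow_rpow_atTop a (by positivity : 0 < η / 8)).bound one_pos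
    filter_upwards [h, eventually_ge_atTop (1 : ℝ)] with R hR hR1
    rw [one_mul, Real.norm_of_nonneg (Real.rpow_nonneg (Real.log_nonneg hR1) _),
      Real.norm_of_nonneg (Real.rpow_nonneg (by linarith) _)] at hR
    exact hR
  have ev2 : ∀ᶠ R : ℝ in atTop, (tau R) ^ 2 * Ct ≤ R ^ (η / 16) := by
    have h := (isLittleO_log_rpow_rpow_atTop (2 : ℝ) (by positivity : 0 < η / 16)).bound (by positivity : (0 : ℝ) < 64 / Ct)
    filter_upwards [h, eventually_ge_atTop (1 : ℝ)] with R hR hR1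
    rw [Real.norm_of_nonneg (Real.rpow_nonneg (Real.log_nonneg hR1) _),
      Real.norm_of_nonneg (Real.rpow_nonneg (by linarith) _), Real.rpow_two, div_mul_eq_mul_div, le_div_iff₀ hCt0] at hR
    unfold tau
    linarith
  have ev3 : ∀ᶠ R : ℝ in atTop, R ^ (-η) ≤ 1 / 4 := by
    have h := tendsto_rpow_neg_atTop hη
    exact (h.eventually (ge_mem_nhds (by norm_num : (0 : ℝ) < 1 / 4)))
  have ev4 : ∀ᶠ R : ℝ in atTop, w0 R * Real.exp 1 ≤ R ^ (-η) := by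
    have h := tendsto_rpow_neg_atTop (by norm_num : (0 : ℝ) < 1 / 5)
    filter_upwards [h.eventually (ge_mem_nhds (Real.exp_pos (-1))), eventually_ge_atTop (1 : ℝ)] with R hR hR1
    have hR0 : 0 < R := by linarith
    calc w0 R * Real.exp 1 = R ^ (-(1 / 20) : ℝ) * (R ^ (-(1 / 5) : ℝ) * Real.exp 1) := by
          unfold w0
          rw [← mul_assoc, ← Real.rpow_add hR0]
          norm_num
      _ ≤ R ^ (-(1 / 20) : ℝ) * (Real.exp (-1) * Real.exp 1) := by gcongr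
      _ = R ^ (-(1 / 20) : ℝ) := by rw [← Real.exp_add]; simp
      _ ≤ _ := Real.rpow_le_rpow_of_exponent_le hR1 (by linarith)
  obtain ⟨Re, hRe⟩ := eventually_atTop.1 (ev1.and (ev2.and (ev3.and (ev4.and
    ((eventually_ge_atTop RF).and ((eventually_ge_atTop RV).and (eventually_ge_atTop RQ)))))))
  refine ⟨η / 16, max 1 Re, by positivity, le_max_left _ _, ?_⟩
  intro R ρ ϵ μ t V φ hR hQ ht0 ht
  have hR1 : 1 ≤ R := (le_max_left _ _).trans hR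
  have hR0 : 0 < R := by linarith
  obtain ⟨hy', hCt2, hl4, hw0l, hRF, hRV, hRQ⟩ := hRe R ((le_max_right _ _).trans hR)
  obtain ⟨hVb, hρ, hφ, ψ, hψ, hlap, hψn, χ, hχ, hχn, hψχ⟩ := hQPS' R ρ ϵ μ V φ hRQ hQ
  set l : ℝ := R ^ (-η) with hl
  have hl0 : 0 < l := Real.rpow_pos_of_pos hR0 _
  have hl1 : l ≤ 1 := by linarith
  have hl8 : R ^ (-(1 / 8) : ℝ) ≤ l := Real.rpow_le_rpow_of_exponent_le hR1 (by linarith)
  have hN : 0 ≤ nn F φ := integral_nonneg fun z => by positivity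
  have hy : R * ϵ ≤ R ^ (η / 8) := by
    have h1 := hQ.eps1
    rw [le_div_iff₀ hR0] at h1
    linarith
  have hw0p : 0 < w0 R := Real.rpow_pos_of_pos hR0 _
  have hw1p : 0 < w1 R := Real.rpow_pos_of_pos hR0 _
  have hw01 : w1 R = w0 R * Real.exp (-(tau R)) := by
    unfold w1 w0 tau
    have h1 : Real.exp (-(Real.log R / 8)) = R ^ (-(1 / 8) : ℝ) := by
      rw [Real.rpow_def_of_pos hR0]
      congr 1
      ring
    rw [h1, ← Real.rpow_add hR0]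
    norm_num
  have hTB : ∀ w : ℝ, 0 < w → w ≤ l → TB (1 / 4) (cw β α w l) := fun w h1 h2 =>
    (hCWB α β w l hα hβ h1 (h2.trans hl1) hl0 hl1).2.2.2.2.2.2.1
  have hwI : ∀ s ∈ Ioo (-1) (t + 1), w1 R * Real.exp (-1) ≤ w0 R * Real.exp (-s) ∧ w0 R * Real.exp (-s) ≤ l := by
    intro s hs
    constructor
    · rw [hw01, mul_assoc, ← Real.exp_add]
      exact mul_le_mul_of_nonneg_left (Real.exp_le_exp.2 (by linarith [hs.2])) hw0p.le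
    · exact (mul_le_mul_of_nonneg_left (Real.exp_le_exp.2 (by linarith [hs.1])) hw0p.le).trans hw0l
  have hwp : ∀ s : ℝ, 0 < w0 R * Real.exp (-s) := fun s => by positivity
  have hTBs : ∀ s ∈ Ioo (-1) (t + 1), TB (1 / 4) (cw β α (w0 R * Real.exp (-s)) l) := fun s hs =>
    hTB _ (hwp s) (hwI s hs).2
  have hIcc : ∀ s ∈ Icc 0 t, s ∈ Ioo (-1) (t + 1) := fun s hs => ⟨by linarith [hs.1], by linarith [hs.2]⟩
  have hwIcc : ∀ s ∈ Icc 0 t, w1 R ≤ w0 R * Real.exp (-s) ∧ w0 R * Real.exp (-s) ≤ w0 R := by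
    intro s hs
    constructor
    · rw [hw01]
      exact mul_le_mul_of_nonneg_left (Real.exp_le_exp.2 (by linarith [hs.2])) hw0p.le
    · calc w0 R * Real.exp (-s) ≤ w0 R * 1 := mul_le_mul_of_nonneg_left (Real.exp_le_one_iff.2 (by linarith [hs.1])) hw0p.le
        _ = w0 R := mul_one _
  have hfin := (A_GFD Γ F hΓ hFd).1.2.2.1
  have hfm : IsFiniteMeasure (mG.restrict (dG F)) := ⟨by rwa [Measure.restrict_apply_univ]⟩
  -- the bound of the derivative in the mean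
  have hstep : ∀ s ∈ Icc 0 t, R * iR F (fun h => ‖TRN_X β α V (w0 R * Real.exp (-s)) l R ϵ φ h‖ ^ 2) ≤
      Ct * (R ^ (-(η / 8)) * nn F φ) := by
    intro s hs
    obtain ⟨hw1, hw0⟩ := hwIcc s hs
    have hwl := (hwI s (hIcc s hs)).2
    have hc := hTBs s (hIcc s hs)
    have hwpos := hwp s
    set w : ℝ := w0 R * Real.exp (-s) with hw
    have h12 : R ^ (-(1 / 2) : ℝ) ≤ w := (Real.rpow_le_rpow_of_exponent_le hR1 (by norm_num)).trans hw1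
    obtain ⟨-, -, hAC⟩ := hACC' w l hwpos hwl hl1
    refine TRN_step hFLP Γ F α β V w l R η ϵ C0 K Cg (Ca * (w ^ (-(5 / 2) : ℝ) / l)) (Cg * Ca ^ 2) φ ψ χ hΓ hFd hc hR1 hη hη2
      hQ.eps0 hK.le (by positivity) hy hQ.eig.1 hφ hψ hχ hQ.inv hVb hlap hψχ hχn ?_
      (hGFB' Γ F R w l _ _ hΓ hFd hR1 h12 hwl hl4 (by positivity) hAC φ hφ) ?_
      (hVSP' R w ρ V φ hRV hw1 hw0 hρ hQ.rho1 hQ.mol hφ)
    · intro u hu
      refine (hF1' Γ F R w l hΓ hFd hRF hw1 hw0 hl8 hl1 u hu).trans ?_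
      have h3 : R ^ (-(1 / 40) : ℝ) ≤ 1 := Real.rpow_le_one_of_one_le_of_nonpos hR1 (by norm_num)
      exact mul_le_mul_of_nonneg_right (by linarith) (integral_nonneg fun z => by positivity)
    · have h4 : w ^ (-4 : ℝ) ≤ R ^ (3 / 2 : ℝ) := by
        calc w ^ (-4 : ℝ) ≤ (w1 R) ^ (-4 : ℝ) := Real.rpow_le_rpow_of_nonpos hw1p hw1 (by norm_num)
          _ = R ^ (3 / 2 : ℝ) := by
            unfold w1
            rw [← Real.rpow_mul hR0.le]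
            norm_num
      have h5 : (w ^ (-(5 / 2) : ℝ)) ^ 2 * w = w ^ (-4 : ℝ) := by
        rw [← Real.rpow_natCast, ← Real.rpow_mul hwpos.le]
        nth_rewrite 2 [← Real.rpow_one w]
        rw [← Real.rpow_add hwpos]
        norm_num
      calc Cg * ((Ca * (w ^ (-(5 / 2) : ℝ) / l)) ^ 2 * w * l ^ 2) = Cg * Ca ^ 2 * ((w ^ (-(5 / 2) : ℝ)) ^ 2 * w) := by
            field_simp
        _ = Cg * Ca ^ 2 * w ^ (-4 : ℝ) := by rw [h5]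
        _ ≤ _ := mul_le_mul_of_nonneg_left h4 (by positivity)
  have hB : ∀ s ∈ Icc 0 t, ∫ g in dG F, ‖TRN_Y' β α V l R ϵ φ s g‖ ^ 2 ∂mG ≤ R⁻¹ * (Ct * (R ^ (-(η / 8)) * nn F φ)) := by
    intro s hs
    have hX := TRN_Xinv Γ β α V _ l R ϵ φ hφ hQ.inv (hTBs s (hIcc s hs))
    have e1 : ∫ g in dG F, ‖TRN_Y' β α V l R ϵ φ s g‖ ^ 2 ∂mG =
        iR F (fun h => ‖TRN_X β α V (w0 R * Real.exp (-s)) l R ϵ φ h‖ ^ 2) := by
      simp only [TRN_Y'n]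
      exact ((A_GFD Γ F hΓ hFd).2 ℝ).1 (fun h => ‖TRN_X β α V (w0 R * Real.exp (-s)) l R ϵ φ h‖ ^ 2) (aM s)
        (fun γ g => by rw [hX.2 γ g])
    rw [e1, inv_mul_eq_div, le_div_iff₀ hR0, mul_comm]
    exact hstep s hs
  -- uniform bounds
  obtain ⟨m, hm⟩ := TRN_bd Γ hΓ φ hφ
  have hm0 : 0 ≤ m := (norm_nonneg _).trans (hm I)
  set om : ℝ := (w1 R * Real.exp (-1)) ^ (-(1 / 2) : ℝ) with hom
  have hom0 : 0 < om := Real.rpow_pos_of_pos (by positivity) _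
  set vK : ℝ := (volume TRN_K).toReal with hvK
  have hvK0 : 0 ≤ vK := ENNReal.toReal_nonneg
  have hbd : ∀ s ∈ Ioo (-1) (t + 1), ∀ g : SL(2, ℝ), ‖TRN_Y' β α V l R ϵ φ s g‖ ≤
      R * ϵ / 2 * C0 * (Ca * (om / l) * Real.exp 1 * m * vK) + Ca * (om / l ^ 2) * Real.exp 1 * m * vK := by
    intro s hs g
    rw [TRN_Y'n]
    obtain ⟨hw1, hwl⟩ := hwI s hs
    have hc := hTBs s hs
    have hwpos := hwp s
    set w : ℝ := w0 R * Real.exp (-s) with hw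
    obtain ⟨hAC1, hAC2, -⟩ := hACC' w l hwpos hwl hl1
    have hwom : w ^ (-(1 / 2) : ℝ) ≤ om := Real.rpow_le_rpow_of_nonpos (by positivity) hw1 (by norm_num)
    have b1 : ‖QQ β α w l R φ (g * aM s)‖ ≤ Ca * (om / l) * Real.exp 1 * m * vK := by
      refine TRN_sup R _ m _ φ _ hc (fun z => (TRN_AC hAC1 z).trans ?_) hm
      gcongr
    have b2 : ‖Wf (pk R (QU.dY (cw β α w l))) φ (g * aM s)‖ ≤ Ca * (om / l ^ 2) * Real.exp 1 * m * vK := by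
      refine TRN_sup R _ m _ φ _ ((A_FL0.1 _ _ hc).2.2.1) (fun z => (TRN_AC hAC2 z).trans ?_) hm
      gcongr
    unfold TRN_X
    refine (norm_sub_le _ _).trans (add_le_add ?_ b2)
    rw [norm_mul, norm_mul, Complex.norm_I, mul_one, Complex.norm_real, Real.norm_eq_abs, abs_mul,
      abs_of_nonneg (by have := hQ.eps0; positivity : (0 : ℝ) ≤ R * ϵ / 2)]
    have := hQ.eps0
    refine mul_le_mul (mul_le_mul_of_nonneg_left (hVb _) (by positivity)) b1 (norm_nonneg _) (by positivity)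
  have hYb : ∀ s ∈ Icc 0 t, ∃ M, ∀ g : SL(2, ℝ), ‖TRN_Y β α V l R ϵ φ s g‖ ≤ M := by
    intro s hs
    have hc := hTBs s (hIcc s hs)
    have t1 := FL1_tst A_FL0 R _ hc
    have g1 : InvG Γ (Wf (pk R (cw β α (w0 R * Real.exp (-s)) l)) φ) := A_FL0.2.2 Γ _ _ t1.1 t1.2 hφ
    obtain ⟨M, hM⟩ := (A_GBD Γ ℂ _ hΓ g1).1
    exact ⟨M, fun g => by rw [TRN_Yn]; exact hM _⟩
  have hmv := TRN_mv (μ := mG.restrict (dG F)) (TRN_Y β α V l R ϵ φ) (TRN_Y' β α V l R ϵ φ) t _ ht0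
    (fun s hs => (TRN_Yc Γ α β V l R ϵ φ hφ hQ.inv.1 s (hTBs s hs)).aestronglyMeasurable)
    (fun s hs => (TRN_Yc' Γ α β V l R ϵ φ hφ hQ.inv s (hTBs s hs)).aestronglyMeasurable) hYb
    (fun g s => TRN_Yd hTDE Γ α β V l R ϵ φ hΓ hα hβ hR0 hl0 hφ hQ.inv.1 g s) ⟨_, hbd⟩ hB
  -- conclusion
  have haM0 : aM 0 = 1 := by
    ext i j
    fin_cases i <;> fin_cases j <;> simp [aM]
  have hY0 : ∀ g, TRN_Y β α V l R ϵ φ 0 g = QQ β α (w0 R) l R φ g := by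
    intro g
    unfold TRN_Y PT th
    rw [intervalIntegral.integral_same, haM0]
    simp
  have heq : iR F (fun g => ‖PT β α (w0 R) l R t φ g -
      Complex.exp (-(((th V (R * ϵ / 2) t g : ℝ) : ℂ) * Complex.I)) * QQ β α (w0 R) l R φ g‖ ^ 2) =
      ∫ g in dG F, ‖TRN_Y β α V l R ϵ φ t g - TRN_Y β α V l R ϵ φ 0 g‖ ^ 2 ∂mG := by
    unfold iR
    congr 1
    funext g
    rw [hY0 g]
    have h6 : TRN_Y β α V l R ϵ φ t g - QQ β α (w0 R) l R φ g = Complex.exp (((th V (R * ϵ / 2) t g : ℝ) : ℂ) * Complex.I) *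
        (PT β α (w0 R) l R t φ g - Complex.exp (-(((th V (R * ϵ / 2) t g : ℝ) : ℂ) * Complex.I)) * QQ β α (w0 R) l R φ g) := by
      unfold TRN_Y
      rw [mul_sub, ← mul_assoc (Complex.exp _) (Complex.exp _), ← Complex.exp_add, add_neg_cancel, Complex.exp_zero, one_mul]
    rw [h6, norm_mul, Complex.norm_exp_ofReal_mul_I, one_mul]
  rw [heq]
  calc R * ∫ g in dG F, ‖TRN_Y β α V l R ϵ φ t g - TRN_Y β α V l R ϵ φ 0 g‖ ^ 2 ∂mG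
      ≤ R * (t ^ 2 * (R⁻¹ * (Ct * (R ^ (-(η / 8)) * nn F φ)))) := mul_le_mul_of_nonneg_left hmv hR0.le
    _ = t ^ 2 * Ct * (R ^ (-(η / 8)) * nn F φ) := by field_simp
    _ ≤ R ^ (η / 16) * (R ^ (-(η / 8)) * nn F φ) := by
        refine mul_le_mul_of_nonneg_right ?_ (by positivity)
        refine le_trans ?_ hCt2
        exact mul_le_mul_of_nonneg_right (pow_le_pow_left₀ ht0 ht 2) hCt0.le
    _ = _ := by
        rw [← mul_assoc, ← Real.rpow_add hR0]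
        congr 2
        ring

end Pool.Agent.RPQ
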