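import Pool.Agent.helper11.RPQ.SpecG
import Pool.Agent.helper62.RS.All

/-!
# Row rpq:VO2 (MP_07c750): the volume of the thin set of intermediate points
-/

set_option autoImplicit false

open scoped MatrixGroups ContDiff Topology UpperHalfPlane ComplexConjugate
open UpperHalfPlane MeasureTheory Filter Set

namespace Pool.Agent.RPQ

open Pool.Agent.RS
open Pool.Agent.MS (BA BB st pf gk Dk amk)

/-- entries of the elements of `SN` -/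
theorem VO2_SN {C η ε R t : ℝ} {q : SL(2, ℝ)} (hq : q ∈ SN C η ε R t) :
    ∃ u s x e : ℝ, (e = 1 ∨ e = -1) ∧ |u| ≤ C * R ^ (-(3 / 4) + ε) ∧ |s| ≤ C * R ^ (-η) ∧
      q.1 0 0 = e * Real.exp ((t + s) / 2) ∧ q.1 0 1 = e * (Real.exp ((t + s) / 2) * x) ∧
      q.1 1 0 = e * (u * Real.exp ((t + s) / 2)) ∧
      q.1 1 1 = e * (u * Real.exp ((t + s) / 2) * x + Real.exp (-((t + s) / 2))) := by
  obtain ⟨u, s, x, θ, hθ, hu, hs, hx, rfl⟩ := hq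
  rcases hθ with rfl | rfl
  · refine ⟨u, s, x, 1, Or.inl rfl, hu, hs, ?_, ?_, ?_, ?_⟩ <;>
      simp [lM, aM, nM, kM, Matrix.SpecialLinearGroup.coe_mul, Matrix.mul_apply, Fin.sum_univ_two]
  · refine ⟨u, s, x, -1, Or.inr rfl, hu, hs, ?_, ?_, ?_, ?_⟩ <;>
      simp [lM, aM, nM, kM, Matrix.SpecialLinearGroup.coe_mul, Matrix.mul_apply, Fin.sum_univ_two]

/-- the determinant -/
theorem VO2_det (b : SL(2, ℝ)) : b.1 0 0 * b.1 1 1 = 1 + b.1 0 1 * b.1 1 0 := by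
  have h := b.2
  rw [Matrix.det_fin_two] at h
  linarith

/-- entries of `b0⁻¹ * b` -/
theorem VO2_inv (b0 b : SL(2, ℝ)) :
    (b0⁻¹ * b).1 0 0 = b0.1 1 1 * b.1 0 0 - b0.1 0 1 * b.1 1 0 ∧
    (b0⁻¹ * b).1 0 1 = b0.1 1 1 * b.1 0 1 - b0.1 0 1 * b.1 1 1 ∧
    (b0⁻¹ * b).1 1 0 = b0.1 0 0 * b.1 1 0 - b0.1 1 0 * b.1 0 0 ∧
    (b0⁻¹ * b).1 1 1 = b0.1 0 0 * b.1 1 1 - b0.1 1 0 * b.1 0 1 := by
  refine ⟨?_, ?_, ?_, ?_⟩ <;>
    simp [Matrix.SpecialLinearGroup.coe_mul, Matrix.SpecialLinearGroup.coe_inv, Matrix.adjugate_fin_two,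
      Matrix.mul_apply, Fin.sum_univ_two] <;> ring

/-- entries of `b0 * b⁻¹` -/
theorem VO2_inv2 (b0 b : SL(2, ℝ)) :
    (b0 * b⁻¹).1 0 1 = b0.1 0 1 * b.1 0 0 - b0.1 0 0 * b.1 0 1 ∧
    (b0 * b⁻¹).1 1 0 = b0.1 1 0 * b.1 1 1 - b0.1 1 1 * b.1 1 0 := by
  refine ⟨?_, ?_⟩ <;>
    simp [Matrix.SpecialLinearGroup.coe_mul, Matrix.SpecialLinearGroup.coe_inv, Matrix.adjugate_fin_two,
      Matrix.mul_apply, Fin.sum_univ_two] <;> ring

/-- the diagonal entries of the elements of the box -/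
theorem VO2_dg {a b c d : ℝ} (ha : |a| ≤ 3) (hd : |d| ≤ 3) (hdet : a * d = 1 + b * c) (hb : |b| ≤ 1 / 40)
    (hc : |c| ≤ 1 / 40) (had : |a - d| ≤ 1 / 40) : |a| ≤ 3 / 2 ∧ |d| ≤ 3 / 2 := by
  have hbc : |b * c| ≤ 1 / 40 * (1 / 40) := by
    rw [abs_mul]; exact mul_le_mul hb hc (abs_nonneg _) (by norm_num)
  have h1 : |a * (a - d)| ≤ 3 * (1 / 40) := by
    rw [abs_mul]; exact mul_le_mul ha had (abs_nonneg _) (by norm_num)
  have h2 : |d * (a - d)| ≤ 3 * (1 / 40) := by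
    rw [abs_mul]; exact mul_le_mul hd had (abs_nonneg _) (by norm_num)
  have e1 := (abs_le.1 hbc).2
  have e2 := (abs_le.1 h1).2
  have e3 := (abs_le.1 h2).1
  constructor
  · apply abs_le_of_sq_le_sq _ (by norm_num)
    nlinarith
  · apply abs_le_of_sq_le_sq _ (by norm_num)
    nlinarith

theorem VO2_mul2 {a b A B : ℝ} (ha : |a| ≤ A) (hb : |b| ≤ B) : |a * b| ≤ A * B := by
  rw [abs_mul]
  exact mul_le_mul ha hb (abs_nonneg _) ((abs_nonneg _).trans ha)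

theorem VO2_proof (hVOX : VOX_stmt) : VO2_stmt := by
  obtain ⟨C, hC, hV⟩ := hVOX
  intro C1 C2 η ε hC1 hC2 hη hη2 hε hε2
  have hM : (1 : ℝ) ≤ 40 * (C1 + C2) := by linarith
  have hM0 : (0 : ℝ) < 40 * (C1 + C2) := by linarith
  refine ⟨C * (60 * C1 ^ 2 * C2), (40 * (C1 + C2)) ^ (1 / η), by positivity,
    Real.one_le_rpow hM (by positivity), ?_⟩
  intro R t g h hR ht
  have hR1 : (1 : ℝ) ≤ R := (Real.one_le_rpow hM (by positivity)).trans hR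
  have hR0 : (0 : ℝ) < R := by linarith
  -- the basic smallness
  have hbig : 40 * (C1 + C2) ≤ R ^ η := by
    have h1 : ((40 * (C1 + C2)) ^ (1 / η)) ^ η ≤ R ^ η :=
      Real.rpow_le_rpow (by positivity) hR hη.le
    rwa [← Real.rpow_mul hM0.le, one_div, inv_mul_cancel₀ hη.ne', Real.rpow_one] at h1
  have hsm : (C1 + C2) * R ^ (-η) ≤ 1 / 40 := by
    rw [Real.rpow_neg hR0.le]
    rw [← div_eq_mul_inv, div_le_iff₀ (by positivity)]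
    linarith
  have hpe : (0 : ℝ) < R ^ (-η) := Real.rpow_pos_of_pos hR0 _
  have hC1s : C1 * R ^ (-η) ≤ 1 / 40 := by nlinarith
  have hC2s : C2 * R ^ (-η) ≤ 1 / 40 := by nlinarith
  have h14 : R ^ (-(1 / 4) : ℝ) ≤ R ^ (-η) := Real.rpow_le_rpow_of_exponent_le hR1 (by linarith)
  have h58 : R ^ (-(5 / 8) + ε) ≤ R ^ (-η) := Real.rpow_le_rpow_of_exponent_le hR1 (by linarith)
  have h34 : R ^ (-(3 / 4) + ε) ≤ R ^ (-η) := Real.rpow_le_rpow_of_exponent_le hR1 (by linarith)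
  have hp14 : (0 : ℝ) < R ^ (-(1 / 4) : ℝ) := Real.rpow_pos_of_pos hR0 _
  have hp58 : (0 : ℝ) < R ^ (-(5 / 8) + ε) := Real.rpow_pos_of_pos hR0 _
  have hp34 : (0 : ℝ) < R ^ (-(3 / 4) + ε) := Real.rpow_pos_of_pos hR0 _
  have hb14 : C1 * R ^ (-(1 / 4) : ℝ) ≤ 1 / 40 :=
    (mul_le_mul_of_nonneg_left h14 (by linarith)).trans hC1s
  have hc58 : R ^ (-(5 / 8) + ε) ≤ 1 / 40 := by nlinarith
  have hU : C2 * R ^ (-(3 / 4) + ε) ≤ 1 / 40 :=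
    (mul_le_mul_of_nonneg_left h34 (by linarith)).trans hC2s
  -- the facts about the elements of the box
  have hbx : ∀ b ∈ Bx C1 η ε R, |b.1 0 0| ≤ 3 / 2 ∧ |b.1 1 1| ≤ 3 / 2 := by
    intro b hb
    obtain ⟨hb1, hb2, hb3, hb4⟩ := hb
    exact VO2_dg (hb1 0 0) (hb1 1 1) (VO2_det b) (hb3.trans hb14) (hb2.trans hc58) (hb4.trans hC1s)
  rcases ({p : SL(2, ℝ) | (g * aM (tau R))⁻¹ * p ∈ Bx C1 η ε R ∧ p⁻¹ * h ∈ SN C2 η ε R t}).eq_empty_or_nonempty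
    with hem | ⟨p0, hp0b, hp0s⟩
  · rw [hem, measure_empty]; exact zero_le
  have hx : (0 : ℝ) < 5 * (C2 * R ^ (-(3 / 4) + ε)) := by positivity
  have hx8 : 5 * (C2 * R ^ (-(3 / 4) + ε)) ≤ 1 / 8 := by linarith
  have hy : (0 : ℝ) < 3 * (C1 * R ^ (-(1 / 4) : ℝ)) := by positivity
  have hz : (0 : ℝ) < 4 * (C1 * R ^ (-η)) := by positivity
  have hbound := hV _ _ _ hx hx8 hy hz
  have hsub : {p : SL(2, ℝ) | (g * aM (tau R))⁻¹ * p ∈ Bx C1 η ε R ∧ p⁻¹ * h ∈ SN C2 η ε R t} ⊆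
      (fun p : SL(2, ℝ) => p0⁻¹ * p) ⁻¹' {b : SL(2, ℝ) | (∀ i j, |b.1 i j| ≤ 3) ∧
        |b.1 1 0| ≤ 5 * (C2 * R ^ (-(3 / 4) + ε)) ∧ |b.1 0 1| ≤ 3 * (C1 * R ^ (-(1 / 4) : ℝ)) ∧
        |b.1 0 0 - b.1 1 1| ≤ 4 * (C1 * R ^ (-η))} := by
    intro p hp
    obtain ⟨hpb, hps⟩ := hp
    have e1 : p0⁻¹ * p = ((g * aM (tau R))⁻¹ * p0)⁻¹ * ((g * aM (tau R))⁻¹ * p) := by group
    have e2 : p0⁻¹ * p = (p0⁻¹ * h) * (p⁻¹ * h)⁻¹ := by group
    obtain ⟨q00, q01, q10, q11⟩ := VO2_inv ((g * aM (tau R))⁻¹ * p0) ((g * aM (tau R))⁻¹ * p)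
    rw [← e1] at q00 q01 q10 q11
    obtain ⟨r01, r10⟩ := VO2_inv2 (p0⁻¹ * h) (p⁻¹ * h)
    rw [← e2] at r01 r10
    obtain ⟨ha0, hd0⟩ := hbx _ hp0b
    obtain ⟨ha, hd⟩ := hbx _ hpb
    obtain ⟨-, hc0, hb0, had0⟩ := hp0b
    obtain ⟨-, hc, hb, had⟩ := hpb
    generalize (g * aM (tau R))⁻¹ * p0 = B0 at *
    generalize (g * aM (tau R))⁻¹ * p = B1 at *
    obtain ⟨u0, s0, x0, e0, he0, hu0, hs0, S00, S01, S10, S11⟩ := VO2_SN hp0s
    obtain ⟨u1, s1, x1, e', he1, hu1, hs1, T00, T01, T10, T11⟩ := VO2_SN hps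
    -- bounds from the box
    have k1 : |(p0⁻¹ * p).1 0 1| ≤ 3 * (C1 * R ^ (-(1 / 4) : ℝ)) := by
      rw [q01]
      have m1 := VO2_mul2 hd0 hb
      have m2 := VO2_mul2 hb0 hd
      calc _ ≤ |B0.1 1 1 * B1.1 0 1| + |B0.1 0 1 * B1.1 1 1| := abs_sub _ _
        _ ≤ 3 / 2 * (C1 * R ^ (-(1 / 4) : ℝ)) + C1 * R ^ (-(1 / 4) : ℝ) * (3 / 2) := add_le_add m1 m2
        _ = _ := by ring
    have k2 : |(p0⁻¹ * p).1 0 0 - (p0⁻¹ * p).1 1 1| ≤ 4 * (C1 * R ^ (-η)) := by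
      have m1 := VO2_mul2 hd0 had
      have m2 := VO2_mul2 had0 hd
      have m3 := VO2_mul2 hb0 (hc.trans hc58)
      have m4 := VO2_mul2 (hc0.trans hc58) hb
      have m5 : C1 * R ^ (-(1 / 4) : ℝ) ≤ C1 * R ^ (-η) := mul_le_mul_of_nonneg_left h14 (by linarith)
      have e : (p0⁻¹ * p).1 0 0 - (p0⁻¹ * p).1 1 1 = B0.1 1 1 * (B1.1 0 0 - B1.1 1 1) -
          (B0.1 0 0 - B0.1 1 1) * B1.1 1 1 - B0.1 0 1 * B1.1 1 0 + B0.1 1 0 * B1.1 0 1 := by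
        rw [q00, q11]; ring
      rw [e]
      rw [abs_le] at m1 m2 m3 m4 ⊢
      constructor <;> linarith [m1.1, m1.2, m2.1, m2.2, m3.1, m3.2, m4.1, m4.2]
    have k3 : |(p0⁻¹ * p).1 1 0| ≤ 3 := by
      rw [q10]
      have m1 := VO2_mul2 ha0 (hc.trans hc58)
      have m2 := VO2_mul2 (hc0.trans hc58) ha
      rw [abs_le] at m1 m2 ⊢
      constructor <;> linarith [m1.1, m1.2, m2.1, m2.2]
    have k4 : |(p0⁻¹ * p).1 0 0| ≤ 3 := by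
      rw [q00]
      have m1 := VO2_mul2 hd0 ha
      have m2 := VO2_mul2 (hb0.trans hb14) (hc.trans hc58)
      rw [abs_le] at m1 m2 ⊢
      constructor <;> linarith [m1.1, m1.2, m2.1, m2.2]
    have k5 : |(p0⁻¹ * p).1 1 1| ≤ 3 := by
      rw [q11]
      have m1 := VO2_mul2 ha0 hd
      have m2 := VO2_mul2 (hc0.trans hc58) (hb.trans hb14)
      rw [abs_le] at m1 m2 ⊢
      constructor <;> linarith [m1.1, m1.2, m2.1, m2.2]
    have k6 : |(p0⁻¹ * p).1 0 1| ≤ 3 := by linarith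
    -- the main bound
    have hE0 : Real.exp ((t + s0) / 2) * Real.exp (-((t + s1) / 2)) ≤ 2 := by
      rw [← Real.exp_add]
      have : (t + s0) / 2 + -((t + s1) / 2) ≤ 1 / 2 := by
        linarith [(abs_le.1 hs0).2, (abs_le.1 hs1).1]
      calc _ ≤ Real.exp (1 / 2) := Real.exp_le_exp.2 this
        _ ≤ 2 := by
          have h2 : Real.exp (1 / 2) ^ 2 ≤ 2 ^ 2 := by
            rw [← Real.exp_nat_mul]
            norm_num
            linarith [Real.exp_one_lt_d9]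
          exact le_of_sq_le_sq h2 (by norm_num)
    have hE1 : Real.exp ((t + s1) / 2) * Real.exp (-((t + s0) / 2)) ≤ 2 := by
      rw [← Real.exp_add]
      have : (t + s1) / 2 + -((t + s0) / 2) ≤ 1 / 2 := by
        linarith [(abs_le.1 hs0).1, (abs_le.1 hs1).2]
      calc _ ≤ Real.exp (1 / 2) := Real.exp_le_exp.2 this
        _ ≤ 2 := by
          have h2 : Real.exp (1 / 2) ^ 2 ≤ 2 ^ 2 := by
            rw [← Real.exp_nat_mul]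
            norm_num
            linarith [Real.exp_one_lt_d9]
          exact le_of_sq_le_sq h2 (by norm_num)
    have hE0' := mul_pos (Real.exp_pos ((t + s0) / 2)) (Real.exp_pos (-((t + s1) / 2)))
    have hE1' := mul_pos (Real.exp_pos ((t + s1) / 2)) (Real.exp_pos (-((t + s0) / 2)))
    have he : |e0 * e'| = 1 := by
      rcases he0 with rfl | rfl <;> rcases he1 with rfl | rfl <;> norm_num
    have k7 : |(p0⁻¹ * p).1 1 0| ≤ 5 * (C2 * R ^ (-(3 / 4) + ε)) := by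
      have e : (p0⁻¹ * p).1 1 0 = (e0 * e') * (u0 * (Real.exp ((t + s0) / 2) * Real.exp (-((t + s1) / 2))) -
          u1 * (Real.exp ((t + s1) / 2) * Real.exp (-((t + s0) / 2)))) - u1 * u0 * (p0⁻¹ * p).1 0 1 := by
        rw [r10, r01, S00, S01, S10, S11, T00, T01, T10, T11]; ring
      have m1 : |u0 * (Real.exp ((t + s0) / 2) * Real.exp (-((t + s1) / 2)))| ≤
          C2 * R ^ (-(3 / 4) + ε) * 2 := VO2_mul2 hu0 (by rw [abs_of_pos hE0']; exact hE0)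
      have m2 : |u1 * (Real.exp ((t + s1) / 2) * Real.exp (-((t + s0) / 2)))| ≤
          C2 * R ^ (-(3 / 4) + ε) * 2 := VO2_mul2 hu1 (by rw [abs_of_pos hE1']; exact hE1)
      have m3 : |u1 * u0 * (p0⁻¹ * p).1 0 1| ≤ C2 * R ^ (-(3 / 4) + ε) * (1 / 40) * 3 :=
        VO2_mul2 (VO2_mul2 hu1 (hu0.trans hU)) k6
      have m4 : |(e0 * e') * (u0 * (Real.exp ((t + s0) / 2) * Real.exp (-((t + s1) / 2))) -
          u1 * (Real.exp ((t + s1) / 2) * Real.exp (-((t + s0) / 2))))| ≤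
          C2 * R ^ (-(3 / 4) + ε) * 2 + C2 * R ^ (-(3 / 4) + ε) * 2 := by
        rw [abs_mul, he, one_mul]
        exact (abs_sub _ _).trans (add_le_add m1 m2)
      rw [e]
      refine (abs_sub _ _).trans ?_
      have m5 : (0 : ℝ) < C2 * R ^ (-(3 / 4) + ε) := by positivity
      linarith
    refine ⟨?_, k7, k1, k2⟩
    intro i j
    fin_cases i <;> fin_cases j
    · exact k4
    · exact k6
    · exact k3
    · exact k5
  have hmeas : Measurable (fun p : SL(2, ℝ) => p0⁻¹ * p) := (continuous_const.mul continuous_id).measurable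
  calc mG {p : SL(2, ℝ) | (g * aM (tau R))⁻¹ * p ∈ Bx C1 η ε R ∧ p⁻¹ * h ∈ SN C2 η ε R t}
      ≤ mG ((fun p : SL(2, ℝ) => p0⁻¹ * p) ⁻¹' {b : SL(2, ℝ) | (∀ i j, |b.1 i j| ≤ 3) ∧
        |b.1 1 0| ≤ 5 * (C2 * R ^ (-(3 / 4) + ε)) ∧ |b.1 0 1| ≤ 3 * (C1 * R ^ (-(1 / 4) : ℝ)) ∧
        |b.1 0 0 - b.1 1 1| ≤ 4 * (C1 * R ^ (-η))}) := measure_mono hsub
    _ ≤ (Measure.map (fun p : SL(2, ℝ) => p0⁻¹ * p) mG) {b : SL(2, ℝ) | (∀ i j, |b.1 i j| ≤ 3) ∧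
        |b.1 1 0| ≤ 5 * (C2 * R ^ (-(3 / 4) + ε)) ∧ |b.1 0 1| ≤ 3 * (C1 * R ^ (-(1 / 4) : ℝ)) ∧
        |b.1 0 0 - b.1 1 1| ≤ 4 * (C1 * R ^ (-η))} := Measure.le_map_apply hmeas.aemeasurable _
    _ ≤ _ := by
      rw [A_GLI p0⁻¹]
      refine hbound.trans (ENNReal.ofReal_le_ofReal (le_of_eq ?_))
      have e : R ^ (-1 + ε - η) = R ^ (-(3 / 4) + ε) * R ^ (-(1 / 4) : ℝ) * R ^ (-η) := by
        rw [← Real.rpow_add hR0, ← Real.rpow_add hR0]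
        congr 1
        ring
      rw [e]
      ring

end Pool.Agent.RPQ
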